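import Pool.Agent.H20.TT

set_option autoImplicit false

namespace Pool.Agent.Results.MP_dcacc7_lc.Exists
open Pool.Agent.H20.TT

/-- classical truth, the arrow being read materially -/
def holds (v : ℕ → Prop) : Fm → Prop
  | .var p => v p
  | .neg φ => ¬ holds v φ
  | .and φ ψ => holds v φ ∧ holds v ψ
  | .or φ ψ => holds v φ ∨ holds v ψ
  | .imp φ ψ => ¬ holds v φ ∨ holds v ψ

theorem result : ∃ φ : Fm, (∀ v, holds v φ) ∧ ¬ Acc φ :=
  ⟨.imp (.and (.var 0) (.neg (.var 0))) (.var 1), fun v => by simp only [holds]; tauto,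
    fun h => crystal h (fun p => if p = 0 then 2 else 0) rfl⟩

end Pool.Agent.Results.MP_dcacc7_lc.Exists
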